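import Pool.Agent.helper34.NTA.Spec

set_option autoImplicit false

/-! Row nta:NXT of project NTA (helper34): the next exit. -/

namespace Pool.Agent.NTA

open Equiv

theorem NXT_sig {X : Type} {A : ArcFamily X} {σ : Perm A.Ray}
    (hσ : ∀ r r' : A.Ray, σ.SameCycle r r' ↔ r.p = r'.p) (e : A.Ray) :
    A.pt (σ e).x (σ e).i = A.pt e.x e.i := by
  have h : σ.SameCycle e (σ e) := ⟨1, by rw [zpow_one]⟩
  exact ((hσ e (σ e)).1 h).symm

theorem NXT (hWLK : WLK_stmt) : NXT_stmt := by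
  intro H _ _ s sg hG A pos yp σ hP hσ e he
  have hex := exit_x he
  have hei := labr_pos hP hex
  have hlen : ∀ x, 2 ≤ A.len x := by
    rintro (h | y)
    · rw [hP.lenH]; omega
    · rw [hP.lenY]
  have hsig : A.pt (σ e).x (σ e).i = A.pt (Sum.inl (hvr e)) (pos (hvr e) (labr pos e)) := by
    rw [NXT_sig hσ e, hei, ← hex]
  obtain ⟨t₁, ht₁, hgo₁, hb₁⟩ := hWLK (VV sg) A σ hσ hlen e
  by_cases hc : KL (labr pos e)
  · have h1 : (σ e).x = Sum.inr (yy hG (hvr e) (labr pos e) hc) ∧ (σ e).i = yp (hvr e) (labr pos e) := by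
      rcases hP.twoK (hvr e) (labr pos e) hc (σ e).x (σ e).i (ray_lt _) hsig with h | h
      · exact absurd (h.1.trans hex.symm) he.2
      · exact h
    set e₁ := ((A.flip * σ) ^ t₁) e with he₁
    have h2 : e₁.x = Sum.inr (yy hG (hvr e) (labr pos e) hc) := hgo₁.x.trans h1.1
    have h3 : e₁.i = yp (hvr e * s (labr pos e)) (labr pos e) := by
      have h4 : e₁.i < 2 := by
        have h5 := ray_lt e₁
        rw [h2, hP.lenY] at h5
        exact h5
      have h5 : e₁.i ≠ yp (hvr e) (labr pos e) := by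
        rw [← h1.2]
        exact hgo₁.ne
      have h6 := hP.ylt (hvr e) (labr pos e) hc
      have h7 := hP.ylt (hvr e * s (labr pos e)) (labr pos e) hc
      have h8 := hP.yne (hvr e) (labr pos e) hc
      omega
    have h4 : A.pt (σ e₁).x (σ e₁).i =
        A.pt (Sum.inl (hvr e * s (labr pos e))) (pos (hvr e * s (labr pos e)) (labr pos e)) := by
      rw [NXT_sig hσ e₁, h2, h3, hP.eK _ _ hc, yy_mul]
    have h5 : (σ e₁).x = Sum.inl (hvr e * s (labr pos e)) ∧
        (σ e₁).i = pos (hvr e * s (labr pos e)) (labr pos e) := by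
      rcases hP.twoK _ _ hc (σ e₁).x (σ e₁).i (ray_lt _) h4 with h | h
      · exact h
      · exfalso
        apply hgo₁.out
        rw [h.1, yy_mul, h2]
    obtain ⟨t₂, ht₂, hgo₂, hb₂⟩ := hWLK (VV sg) A σ hσ hlen e₁
    have hpow : ∀ u : ℕ, ((A.flip * σ) ^ (u + t₁)) e = ((A.flip * σ) ^ u) e₁ := by
      intro u
      rw [he₁, ← Perm.mul_apply, ← pow_add]
    refine ⟨t₂ + t₁, by omega, ?_, ?_, ?_⟩
    · rw [hpow]
      exact ⟨⟨_, hgo₂.x.trans h5.1⟩, hgo₂.out⟩
    · rw [hpow]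
      exact ⟨e₁, fun h => absurd hc h, fun h => hgo₁.out h.symm, h5.1, h5.2, hgo₂⟩
    · intro u hu1 hu2
      rintro ⟨⟨h, hh⟩, hout⟩
      rcases lt_trichotomy u t₁ with hlt | heq | hgt
      · have h6 := (hb₁ u hu1 hlt).1
        rw [h1.1, hh] at h6
        exact Sum.inl_ne_inr h6
      · rw [heq, ← he₁, h2] at hh
        exact Sum.inr_ne_inl hh
      · obtain ⟨v, rfl⟩ : ∃ v, u = v + t₁ := ⟨u - t₁, by omega⟩
        rw [hpow] at hout
        have h6 := hb₂ v (by omega) (by omega)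
        exact hout (h6.2.trans h6.1.symm)
  · have h1 : (σ e).x = Sum.inl (hvr e * s (labr pos e)) ∧
        (σ e).i = pos (hvr e * s (labr pos e)) (labr pos e) := by
      rcases hP.twoR (hvr e) (labr pos e) hc (σ e).x (σ e).i (ray_lt _) hsig with h | h
      · exact absurd (h.1.trans hex.symm) he.2
      · exact h
    refine ⟨t₁, ht₁, ⟨⟨_, hgo₁.x.trans h1.1⟩, hgo₁.out⟩,
      ⟨e, fun _ => rfl, fun h => he.2 h.symm, h1.1, h1.2, hgo₁⟩, ?_⟩
    intro u hu1 hu2
    rintro ⟨-, hout⟩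
    have h6 := hb₁ u hu1 hu2
    exact hout (h6.2.trans h6.1.symm)

end Pool.Agent.NTA
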